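import Pool.Agent.H58.RdH

namespace Pool.Agent.Results.MP_849d05_an.Counter

open Pool.Agent.H90.FS Pool.Agent.H58.Ns Pool.Agent.H58.Rd Pool.Agent.H58.RdDefs

/-- There is a countable discrete abelian group for which the closure of r(A(G)) is a proper
subset of the Zafran ideal. -/
theorem result :
    ∃ (G : Type) (_ : CommGroup G), Countable G ∧ clos (rad G) ⊂ zafran G := by
  refine ⟨Dual GG, inferInstance, inferInstance, clos_sub, fun h => ?_⟩
  obtain ⟨-, h⟩ := h (show ff ∈ zafran _ from ⟨⟨nb_ff.mem, ff_nat⟩, ff_c0⟩)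
  obtain ⟨g, hg, h⟩ := h (1 / 4) (by norm_num)
  exact h.not_ge (far g hg)

end Pool.Agent.Results.MP_849d05_an.Counter
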